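import Mathlib
import Pool.Agent.Lib.MP_efec9b_co.Cor77
import Pool.Agent.Lib.MP_efec9b_co.Frame24
import Pool.Agent.Lib.MP_efec9b_co.LB85
import Pool.Agent.Lib.MP_efec9b_co.SYM70
import Pool.Agent.Lib.MP_efec9b_co.StQD78

/-! For every monotone `2 × 2` matrix the unrestricted and the monotone maximum density agree. -/

namespace Pool.Agent.Results.MP_efec9b_co.AllTwoByTwo

open Pool.Agent.Lib.MP_efec9b_co
open Filter Topology

/-- `f(H)` and `f(X_{‖H‖}, H)` exist and are both equal to `c` -/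
def BothEqual {h : ℕ} (H : Fin h → Fin h → ℕ) (c : ℝ) : Prop :=
  Tendsto (fAll H) atTop (𝓝 c) ∧ Tendsto (fMono H) atTop (𝓝 c)

theorem corner (a b : ℕ) (hab : a < b) :
    BothEqual ![![a, a], ![a, b]] (2 / Real.exp 1 ^ 2) ∧
    BothEqual ![![a, b], ![b, b]] (2 / Real.exp 1 ^ 2) := by
  have e : (2 : ℝ) / Real.exp 1 ^ 2 = 2 * Real.exp (-2) := by
    rw [Real.exp_neg, ← Real.exp_nat_mul, div_eq_mul_inv]
    norm_num
  have h0 : Tendsto (fAll E2.H2) atTop (𝓝 (2 / Real.exp 1 ^ 2)) ∧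
      Tendsto (fMono E2.H2) atTop (𝓝 (2 / Real.exp 1 ^ 2)) := by
    rw [e]
    refine E2.both (E2.stSup_of_QD E2.qd78) fun ε hε => ?_
    obtain ⟨n0, hn0⟩ := LB85.lower ε hε
    filter_upwards [eventually_ge_atTop n0] with n hn
    rw [← e]
    exact hn0 n hn
  have h1 := SYM70.sym70 (c := 2 / Real.exp 1 ^ 2) h0 a b hab
  have eA : SYM70.typeA a b = ![![a, a], ![a, b]] := by
    funext i j
    fin_cases i <;> fin_cases j <;> simp [SYM70.typeA]
  have eB : SYM70.typeB a b = ![![a, b], ![b, b]] := by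
    funext i j
    fin_cases i <;> fin_cases j <;> simp [SYM70.typeB]
  rw [eA, eB] at h1
  exact h1

theorem result :
    -- the two types `(a a; a b)` and `(a b; b b)`, `a < b`
    (∀ a b : ℕ, a < b →
      BothEqual ![![a, a], ![a, b]] (2 / Real.exp 1 ^ 2) ∧
      BothEqual ![![a, b], ![b, b]] (2 / Real.exp 1 ^ 2)) ∧
    -- all monotone `2 × 2` matrices
    (∀ H : Fin 2 → Fin 2 → ℕ, Mono H → ∃ c : ℝ, BothEqual H c) := by
  have core := corner
  refine ⟨core, fun H hM => ?_⟩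
  have m1 : H 0 0 ≤ H 0 1 := hM 0 0 0 1 le_rfl (by decide)
  have m4 : H 0 1 ≤ H 1 1 := hM 0 1 1 1 (by decide) le_rfl
  by_cases h1 : H 0 0 = H 0 1 ∧ H 0 0 = H 1 0 ∧ H 0 0 ≠ H 1 1
  · obtain ⟨e1, e2, e3⟩ := h1
    have e : H = ![![H 0 0, H 0 0], ![H 0 0, H 1 1]] := by
      funext i j
      fin_cases i <;> fin_cases j <;> simp [← e1, ← e2]
    have h3 := (core (H 0 0) (H 1 1) (by omega)).1
    rw [← e] at h3
    exact ⟨_, h3⟩
  · by_cases h2 : H 0 1 = H 1 1 ∧ H 1 0 = H 1 1 ∧ H 0 0 ≠ H 1 1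
    · obtain ⟨e1, e2, e3⟩ := h2
      have e : H = ![![H 0 0, H 1 1], ![H 1 1, H 1 1]] := by
        funext i j
        fin_cases i <;> fin_cases j <;> simp [e1, e2]
      have h3 := (core (H 0 0) (H 1 1) (by omega)).2
      rw [← e] at h3
      exact ⟨_, h3⟩
    · exact ⟨_, BU77.two H hM h1 h2⟩

end Pool.Agent.Results.MP_efec9b_co.AllTwoByTwo
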