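import Mathlib
import Pool.Agent.Lib.MP_efec9b_co.BS.Good3All77
import Pool.Agent.Lib.MP_efec9b_co.BS.Stack3_85
import Pool.Agent.Lib.MP_efec9b_co.BS.UVAL81
import Pool.Agent.Lib.MP_efec9b_co.BS.GLUE3_84
import Pool.Agent.Lib.MP_efec9b_co.BS.RLag77
import Pool.Agent.Lib.MP_efec9b_co.BS.Many2_85
import Pool.Agent.Lib.MP_efec9b_co.BS.Strict85
import Pool.Agent.Lib.MP_efec9b_co.BS.Band85

/-! A class of monotone matrices of all sizes, built from rectangular blocks, for which the
unrestricted and the monotone maximum density agree. -/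

namespace Pool.Agent.Results.MP_efec9b_co.BlowUpClass

open Pool.Agent.Lib.MP_efec9b_co
open Pool.Agent.Lib.MP_efec9b_co.BU77
open Pool.Agent.Lib.MP_efec9b_co.BS
open Filter Topology

theorem result :
    -- (1) every monotone square matrix of the class `Good3`
    (∀ (h : ℕ) (H : Fin h → Fin h → ℕ), Good3 H → Mono H → BothEqual H (value H)) ∧
    -- (2) a combinatorial criterion for the matrices from which the class is built
    (∀ (a h : ℕ) (H : Fin a → Fin h → ℕ), 0 < a → RClique H → RLag H) ∧
    -- (3) a set `R` of rows (or columns) without symbols in common with the other ones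
    (∀ (h : ℕ) (H : Fin h → Fin h → ℕ) (R : Finset (Fin h)), Mono H → R.Nonempty →
      Band H R ∨ Band (fun i j => H j i) R → BothEqual H (value H)) ∧
    -- (4) strictly increasing rows and columns; the value is `(h! / h ^ h) ^ 2`
    (∀ (h : ℕ) (H : Fin h → Fin h → ℕ), 0 < h → (∀ i, StrictMono (H i)) →
      (∀ j, StrictMono fun i => H i j) →
      BothEqual H (((h.factorial : ℝ) / (h : ℝ) ^ h) ^ 2)) ∧
    -- (5) more than `h ^ 2 - h` distinct symbols; the value is `(h! / h ^ h) ^ 2`
    (∀ (h : ℕ) (H : Fin h → Fin h → ℕ), Mono H →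
      h ^ 2 < (Finset.univ.image fun p : Fin h × Fin h => H p.1 p.2).card + h →
      BothEqual H (((h.factorial : ℝ) / (h : ℝ) ^ h) ^ 2)) := by
  refine ⟨fun h H hB hM => G77.both_of_good3 stack3_85 uval2_81 glue3_84 uval4_81 hB hM,
    fun a h H ha hK => rlag_of_rclique77 H ha hK, ?_, ?_, ?_⟩
  · intro h H R hM hR hc
    rcases hc with hc | hc
    · exact G77.both_of_good (good_band H R hM hR hc) hM
    · exact G77.both_of_good (Good.tr (fun i j => H j i)
        (good_band (fun i j => H j i) R (fun i i' j j' hi hj => hM j j' i i' hj hi) hR hc)) hM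
  · intro h H hh h1 h2
    obtain ⟨hM, hG, hv⟩ := good_strict2 H hh h1 h2
    rw [← hv]
    exact G77.both_of_good hG hM
  · intro h H hM hk
    obtain ⟨h1, h2, h3⟩ := many2 H hk
    rw [← value_inj H h2 h3]
    exact G77.both_of_good h1 hM

end Pool.Agent.Results.MP_efec9b_co.BlowUpClass
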